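import Mathlib
import Pool.Agent.N176.GP.Fin
import Pool.Agent.N176.OW.All2
import Pool.Agent.H32x.PL.Ex
import Pool.Agent.H32x.PL.GauH

set_option autoImplicit false

/-!
# Repunits and first digits in all bases: the Gaussian fluctuations of a Poisson process

For an integer `a ≥ 2`, a real `β > 0` and a prime `p` let `W a β p` be the `p`-rough part (the
product, with multiplicity, of the prime factors larger than `p`) of the largest integer below
`β * a ^ p`, the integer formed by the first `p` digits of `β` in base `a` (for `0 < β ≤ 1`,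
non-terminating expansion).  For `a = 10` and `β = 1 / 9 = 0.111...` this is the repunit `R_p` itself,
for every prime `p ≠ 3`; for any base and `β = 1 / (a - 1)` it is the repunit `(a ^ p - 1) / (a - 1)`
in base `a`, for every prime `p` that does not divide `a - 1`.  Call a prime `p` of a set `S` a good
length for `β` in base `a` if `W a β p` is prime.

According to the Poisson model behind the conjecture on repunit primes the good lengths in `S` form, on
the scale `κ a * V S p`, where `V S n` is the sum of `log p / p` over the primes `p ≤ n` of `S` and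
`κ a = e ^ γ / log a`, a Poisson process of intensity one, so that their number `M a S β n` up to `n`
has mean and variance `κ a * V S n` and is asymptotically normal, and the fluctuations in disjoint
windows are independent.  We prove this in every base, for a random `β` with the uniform distribution
on any set of finite positive measure, for every set `S` of infinite weight whose dyadic pieces have
weights tending to zero and in which the pairs `p`, `p + h` have weight zero relative to the weight of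
`S`, for every `h`.
-/

namespace Pool.Agent.Results.MP_adea1b_nt.BrownianInEveryBase

open Filter Topology MeasureTheory ProbabilityTheory

/-- The product, with multiplicity, of the prime factors of `m` that are larger than `p`. -/
def roughPart (p m : ℕ) : ℕ := (m.primeFactorsList.filter (fun r => p < r)).prod

/-- The `p`-rough part of the largest integer below `β * a ^ p`. -/
noncomputable def W (a : ℕ) (β : ℝ) (p : ℕ) : ℕ := roughPart p (⌈β * (a : ℝ) ^ p⌉₊ - 1)

/-- The good lengths for `β` in base `a` and in `S`: the primes `p` in `S` for which `W a β p` is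
prime. -/
def E (a : ℕ) (S : Set ℕ) (β : ℝ) : Set ℕ := {p | p.Prime ∧ p ∈ S ∧ (W a β p).Prime}

open Classical in
/-- The number of the good lengths `p ≤ n` in `S`. -/
noncomputable def M (a : ℕ) (S : Set ℕ) (β : ℝ) (n : ℕ) : ℕ :=
  ((Finset.range (n + 1)).filter (fun p => p ∈ E a S β)).card

open Classical in
/-- The sum of `log p / p` over the primes `p ≤ n` in the set `S`. -/
noncomputable def V (S : Set ℕ) (n : ℕ) : ℝ :=
  ∑ p ∈ (Finset.range (n + 1)).filter (fun p => p.Prime ∧ p ∈ S), Real.log p / p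

/-- The constant of the law, `e ^ γ / log a`. -/
noncomputable def κ (a : ℕ) : ℝ := Real.exp Real.eulerMascheroniConstant / Real.log a

/-- The standard normal distribution function, with values in `[0, ∞]`. -/
noncomputable def Φ (y : ℝ) : ENNReal := gaussianReal 0 1 (Set.Iic y)

/-- The central limit theorem for the number of good lengths in `S` in base `a`: on every measurable
set `A` of finite measure the measure of the `β` with `M a S β n ≤ κ a * V S n + y √(κ a * V S n)`
tends to the measure of `A` times `Φ y`. -/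
def NormalLaw (a : ℕ) (S : Set ℕ) : Prop :=
  ∀ A : Set ℝ, MeasurableSet A → A ⊆ Set.Ioi 0 → volume A ≠ ⊤ → ∀ y : ℝ,
    Tendsto (fun n : ℕ => volume {β ∈ A | (M a S β n : ℝ) ≤ κ a * V S n + y * √(κ a * V S n)}) atTop
      (𝓝 (volume A * Φ y))

/-- The joint law of the numbers of good lengths in disjoint windows, on the scale `κ a * V S`: on
every measurable set `A` of finite measure the measure of the `β` for which for all `i < r` the window
`t i * x < κ a * V S q ≤ t (i + 1) * x` contains at most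
`(t (i + 1) - t i) * x + y i * √((t (i + 1) - t i) * x)` good lengths `q` tends, as `x → ∞`, to the
measure of `A` times the product of the `Φ (y i)`. -/
def BrownianLaw (a : ℕ) (S : Set ℕ) : Prop :=
  ∀ A : Set ℝ, MeasurableSet A → A ⊆ Set.Ioi 0 → volume A ≠ ⊤ →
    ∀ (r : ℕ) (t : ℕ → ℝ) (y : Fin r → ℝ), 0 ≤ t 0 → (∀ i < r, t i < t (i + 1)) →
    Tendsto (fun x : ℝ => volume {β ∈ A | ∀ i : Fin r,
      (({q | q ∈ E a S β ∧ t i * x < κ a * V S q ∧ κ a * V S q ≤ t (i + 1) * x}).ncard : ℝ) ≤
        (t (i + 1) - t i) * x + y i * √((t (i + 1) - t i) * x)}) atTop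
      (𝓝 (volume A * ∏ i, Φ (y i)))

/-- all prime factors of `(b ^ p - 1) / (b - 1)` are large -/
lemma lt_of_dvd_repunit {b p r : ℕ} (hb : 2 ≤ b) (hp : p.Prime) (hpb : ¬ p ∣ b - 1) (hr : r.Prime)
    (h : r ∣ (b ^ p - 1) / (b - 1)) : p < r := by
  haveI : Fact p.Prime := ⟨hp⟩
  haveI : Fact r.Prime := ⟨hr⟩
  have hdiv : (b - 1) ∣ b ^ p - 1 := by
    have h := Nat.sub_dvd_pow_sub_pow b 1 p
    rwa [one_pow] at h
  have hgeom : (∑ i ∈ Finset.range p, b ^ i) = (b ^ p - 1) / (b - 1) :=
    Nat.geomSum_eq hb p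
  have h0 : r ∣ b ^ p - 1 := h.trans (Nat.div_dvd_of_dvd hdiv)
  have h1 : (b : ZMod r) ^ p = 1 := by
    have h2 : ((b ^ p - 1 : ℕ) : ZMod r) = 0 := (ZMod.natCast_eq_zero_iff _ _).2 h0
    rw [Nat.cast_sub (Nat.one_le_pow _ _ (by omega))] at h2
    push_cast at h2
    exact sub_eq_zero.1 h2
  have h2 : (b : ZMod r) ≠ 1 := by
    intro h3
    rw [← hgeom] at h
    have h4 : ((∑ i ∈ Finset.range p, b ^ i : ℕ) : ZMod r) = 0 := (ZMod.natCast_eq_zero_iff _ _).2 h
    push_cast at h4
    rw [h3] at h4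
    simp only [one_pow, Finset.sum_const, Finset.card_range, nsmul_eq_mul, mul_one] at h4
    have h5 : r ∣ p := (ZMod.natCast_eq_zero_iff _ _).1 h4
    have h6 : r = p := (Nat.prime_dvd_prime_iff_eq hr hp).1 h5
    subst h6
    apply hpb
    rw [← ZMod.natCast_eq_zero_iff, Nat.cast_sub (by omega), h3]
    simp
  have h3 : orderOf (b : ZMod r) = p := orderOf_eq_prime h1 h2
  have h4 : (b : ZMod r) ≠ 0 := by
    intro h5
    rw [h5, zero_pow hp.ne_zero] at h1
    exact zero_ne_one h1
  have h5 : p ∣ r - 1 := by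
    rw [← h3]
    exact orderOf_dvd_of_pow_eq_one (ZMod.pow_card_sub_one_eq_one h4)
  have h6 := Nat.le_of_dvd (by have := hr.one_lt; omega) h5
  have h7 := hr.one_lt
  omega

/-- the special value -/
lemma special {a p : ℕ} (ha : 2 ≤ a) (hp : p.Prime) (hpa : ¬ p ∣ a - 1) :
    W a (1 / ((a : ℝ) - 1)) p = (a ^ p - 1) / (a - 1) := by
  have hgeom : (∑ i ∈ Finset.range p, a ^ i) = (a ^ p - 1) / (a - 1) := Nat.geomSum_eq ha p
  rw [← hgeom]
  set R := ∑ i ∈ Finset.range p, a ^ i with hR
  have ha1 : (1 : ℝ) ≤ (a : ℝ) - 1 := by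
    have : (2 : ℝ) ≤ a := by exact_mod_cast ha
    linarith
  have ha0 : (a : ℝ) - 1 ≠ 0 := by linarith
  have hRr : (R : ℝ) * ((a : ℝ) - 1) = (a : ℝ) ^ p - 1 := by
    have h := geom_sum_mul (a : ℝ) p
    rw [hR]
    push_cast
    linarith
  have e : (1 / ((a : ℝ) - 1)) * (a : ℝ) ^ p = R + 1 / ((a : ℝ) - 1) := by
    field_simp
    linarith
  have h1a : 0 < 1 / ((a : ℝ) - 1) := by positivity
  have h1b : 1 / ((a : ℝ) - 1) ≤ 1 := by
    rw [div_le_one (by linarith)]
    exact ha1
  have hceil : ⌈(1 / ((a : ℝ) - 1)) * (a : ℝ) ^ p⌉₊ = R + 1 := by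
    rw [e, Nat.ceil_eq_iff (Nat.succ_ne_zero R)]
    push_cast
    constructor
    · linarith
    · linarith
  unfold W
  rw [hceil, Nat.add_sub_cancel]
  unfold roughPart
  have hR0 : R ≠ 0 := by
    intro h0
    have hmem : a ^ 0 ≤ R := by
      rw [hR]
      exact Finset.single_le_sum (f := fun i => a ^ i) (fun i _ => Nat.zero_le _)
        (Finset.mem_range.2 hp.pos)
    rw [h0] at hmem
    simp at hmem
  rw [List.filter_eq_self.2, Nat.prod_primeFactorsList hR0]
  intro r hr
  have h1 := Nat.dvd_of_mem_primeFactorsList hr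
  rw [hgeom] at h1
  have := lt_of_dvd_repunit ha hp hpa (Nat.prime_of_mem_primeFactorsList hr) h1
  simpa using this

/-- the decimal repunits -/
lemma special_ten {p : ℕ} (hp : p.Prime) (hp3 : p ≠ 3) :
    W 10 (1 / 9) p = ∑ i ∈ Finset.range p, 10 ^ i := by
  have hp9 : ¬ p ∣ 10 - 1 := by
    intro h
    have : p ∣ 3 ^ 2 := by simpa using h
    exact hp3 ((Nat.prime_dvd_prime_iff_eq hp Nat.prime_three).1 (hp.dvd_of_dvd_pow this))
  have h := special (a := 10) (by norm_num) hp hp9
  have e : (1 / ((10 : ℕ) - 1 : ℝ)) = 1 / 9 := by norm_num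
  rw [e] at h
  rw [h, Nat.geomSum_eq (by norm_num) p]

/-- At `β = 1 / 9` and in base `10` the integers `W a β p` are the decimal repunits, for `p ≠ 3`, and
at `β = 1 / (a - 1)` those in base `a`.  The two laws hold in every base for every set `S` of infinite
weight whose dyadic pieces have weights tending to zero and whose pairs at every fixed distance have
relative weight zero; in particular for all primes in the windows `(2 ^ i, (1 + ε i) 2 ^ i]`, if
`ε i → 0` and `∑ ε i = ∞`. -/
theorem result :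
    (∀ p : ℕ, p.Prime → p ≠ 3 → W 10 (1 / 9) p = ∑ i ∈ Finset.range p, 10 ^ i) ∧
    (∀ a : ℕ, 2 ≤ a → ∀ p : ℕ, p.Prime → ¬ p ∣ a - 1 →
      W a (1 / ((a : ℝ) - 1)) p = (a ^ p - 1) / (a - 1)) ∧
    (∀ S : Set ℕ, Tendsto (fun n => V S n) atTop atTop →
      Tendsto (fun n : ℕ => V S (2 * n) - V S n) atTop (𝓝 0) →
      (∀ h : ℕ, 1 ≤ h → Tendsto (fun n =>
        V {p | p ∈ S ∧ p + h ∈ S ∧ (p + h).Prime} n / V S n) atTop (𝓝 0)) →
      ∀ a : ℕ, 2 ≤ a → NormalLaw a S ∧ BrownianLaw a S) ∧
    (∀ ε : ℕ → ℝ, (∀ i, 0 ≤ ε i) → (∀ i, ε i ≤ 1) → Tendsto ε atTop (𝓝 0) → ¬ Summable ε →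
      ∀ a : ℕ, 2 ≤ a → NormalLaw a {p | ∃ i : ℕ, 2 ^ i < p ∧ (p : ℝ) ≤ 2 ^ i * (1 + ε i)} ∧
      BrownianLaw a {p | ∃ i : ℕ, 2 ^ i < p ∧ (p : ℝ) ≤ 2 ^ i * (1 + ε i)}) := by
  classical
  have ek : ∀ a : ℕ, Pool.Agent.N176.OW.kap a = κ a := fun a => rfl
  have eE : ∀ a S β, Pool.Agent.H32x.PL.Et a S β = E a S β := by
    intro a S β
    unfold Pool.Agent.H32x.PL.Et E W Pool.Agent.N176.GP.NB
    rfl
  have ev : ∀ a S n, Pool.Agent.H32x.PL.vv a S n = κ a * V S n := by
    intro a S n
    unfold Pool.Agent.H32x.PL.vv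
    rw [ek]
    rfl
  have eM : ∀ a S β n, Pool.Agent.N176.GP.MB a S β n = M a S β n := by
    intro a S β n
    rw [Pool.Agent.H32x.PL.MB_eq]
    unfold M
    simp only [eE]
  have hmain : ∀ S : Set ℕ, Tendsto (fun n => V S n) atTop atTop →
      Tendsto (fun n : ℕ => V S (2 * n) - V S n) atTop (𝓝 0) →
      (∀ h : ℕ, 1 ≤ h → Tendsto (fun n =>
        V {p | p ∈ S ∧ p + h ∈ S ∧ (p + h).Prime} n / V S n) atTop (𝓝 0)) →
      ∀ a : ℕ, 2 ≤ a → NormalLaw a S ∧ BrownianLaw a S := by
    intro S hS hD hP a ha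
    refine ⟨fun A hA hA0 hfin y => ?_, fun A hA hA0 hfin r t y ht0 ht => ?_⟩
    · have h := Pool.Agent.H32x.PL.clt Pool.Agent.N176.OW.All.fm (b := a) ha hS hD hP y A hA hA0 hfin
      simp only [eM, ev] at h
      exact h
    · have h := Pool.Agent.H32x.PL.gauss Pool.Agent.N176.OW.All.fm (b := a) ha hS hD hP ht0 ht y
        A hA hA0 hfin
      simp only [eE, ev] at h
      exact h
  refine ⟨fun p hp h3 => special_ten hp h3, fun a ha p hp hpa => special ha hp hpa, hmain,
    fun ε hε0 hε1 hε hεs => ?_⟩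
  obtain ⟨h1, h2, h3⟩ := Pool.Agent.H32x.PL.thin_ok hε0 hε1 hε hεs
  exact hmain _ h1 h2 h3

end Pool.Agent.Results.MP_adea1b_nt.BrownianInEveryBase
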