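import Mathlib
import Pool.Agent.Helper76x.EX.Cor
import Pool.Agent.Helper76x.EX.Few1

set_option autoImplicit false

/-!
# Amplitudes with finitely many good lengths

For an integer `a ≥ 2`, a real `β > 0` and a prime `p` let `W a β p` be the `p`-rough part (the
product, with multiplicity, of the prime factors larger than `p`) of the largest integer below
`β * a ^ p`, the integer formed by the first `p` digits of `β` in base `a` (for `0 < β ≤ 1`,
non-terminating expansion).  For `a = 10` and `β = 1 / 9 = 0.111...` this is the repunit `R_p` itself,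
for every prime `p ≠ 3`.  Call a prime `p` a good length for `β` in base `a` if `W a β p` is prime.

For almost every `β` there are infinitely many good lengths in every base.  We prove that the null set
of exceptions is large in the sense of dimension: for every base `a ≥ 3`, in every interval of
amplitudes, the `β` with finitely many good lengths in base `a` form a set of Hausdorff dimension at
least `1 - 1 / log a`, in base ten at least `0.565`.
-/

namespace Pool.Agent.Results.MP_adea1b_nt.FinitelyManyLengths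

open Filter Topology

/-- The product, with multiplicity, of the prime factors of `m` that are larger than `p`. -/
def roughPart (p m : ℕ) : ℕ := (m.primeFactorsList.filter (fun r => p < r)).prod

/-- The `p`-rough part of the largest integer below `β * a ^ p`. -/
noncomputable def W (a : ℕ) (β : ℝ) (p : ℕ) : ℕ := roughPart p (⌈β * (a : ℝ) ^ p⌉₊ - 1)

/-- all prime factors of `(b ^ p - 1) / (b - 1)` are large -/
lemma lt_of_dvd_repunit {b p r : ℕ} (hb : 2 ≤ b) (hp : p.Prime) (hpb : ¬ p ∣ b - 1) (hr : r.Prime)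
    (h : r ∣ (b ^ p - 1) / (b - 1)) : p < r := by
  have : Fact p.Prime := ⟨hp⟩
  have : Fact r.Prime := ⟨hr⟩
  have hdiv : (b - 1) ∣ b ^ p - 1 := by
    have h := Nat.sub_dvd_pow_sub_pow b 1 p
    rwa [one_pow] at h
  have hgeom : (∑ i ∈ Finset.range p, b ^ i) = (b ^ p - 1) / (b - 1) :=
    Nat.geomSum_eq hb p
  have h0 : r ∣ b ^ p - 1 := h.trans (Nat.div_dvd_of_dvd hdiv)
  have h1 : (b : ZMod r) ^ p = 1 := by
    have h2 : ((b ^ p - 1 : ℕ) : ZMod r) = 0 := (ZMod.natCast_eq_zero_iff _ _).2 h0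
    rw [Nat.cast_sub (Nat.one_le_pow _ _ (by omega))] at h2
    push_cast at h2
    exact sub_eq_zero.1 h2
  have h2 : (b : ZMod r) ≠ 1 := by
    intro h3
    rw [← hgeom] at h
    have h4 : ((∑ i ∈ Finset.range p, b ^ i : ℕ) : ZMod r) = 0 := (ZMod.natCast_eq_zero_iff _ _).2 h
    push_cast at h4
    rw [h3] at h4
    simp only [one_pow, Finset.sum_const, Finset.card_range, nsmul_eq_mul, mul_one] at h4
    have h5 : r ∣ p := (ZMod.natCast_eq_zero_iff _ _).1 h4
    have h6 : r = p := (Nat.prime_dvd_prime_iff_eq hr hp).1 h5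
    subst h6
    apply hpb
    rw [← ZMod.natCast_eq_zero_iff, Nat.cast_sub (by omega), h3]
    simp
  have h3 : orderOf (b : ZMod r) = p := orderOf_eq_prime h1 h2
  have h4 : (b : ZMod r) ≠ 0 := by
    intro h5
    rw [h5, zero_pow hp.ne_zero] at h1
    exact zero_ne_one h1
  have h5 : p ∣ r - 1 := by
    rw [← h3]
    exact orderOf_dvd_of_pow_eq_one (ZMod.pow_card_sub_one_eq_one h4)
  have h6 := Nat.le_of_dvd (by have := hr.one_lt; omega) h5
  have h7 := hr.one_lt
  omega

/-- the special value -/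
lemma special {a p : ℕ} (ha : 2 ≤ a) (hp : p.Prime) (hpa : ¬ p ∣ a - 1) :
    W a (1 / ((a : ℝ) - 1)) p = (a ^ p - 1) / (a - 1) := by
  have hgeom : (∑ i ∈ Finset.range p, a ^ i) = (a ^ p - 1) / (a - 1) := Nat.geomSum_eq ha p
  rw [← hgeom]
  set R := ∑ i ∈ Finset.range p, a ^ i with hR
  have ha1 : (1 : ℝ) ≤ (a : ℝ) - 1 := by
    have : (2 : ℝ) ≤ a := by exact_mod_cast ha
    linarith
  have ha0 : (a : ℝ) - 1 ≠ 0 := by linarith
  have hRr : (R : ℝ) * ((a : ℝ) - 1) = (a : ℝ) ^ p - 1 := by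
    have h := geom_sum_mul (a : ℝ) p
    rw [hR]
    push_cast
    linarith
  have e : (1 / ((a : ℝ) - 1)) * (a : ℝ) ^ p = R + 1 / ((a : ℝ) - 1) := by
    field_simp
    linarith
  have h1a : 0 < 1 / ((a : ℝ) - 1) := by positivity
  have h1b : 1 / ((a : ℝ) - 1) ≤ 1 := by
    rw [div_le_one (by linarith)]
    exact ha1
  have hceil : ⌈(1 / ((a : ℝ) - 1)) * (a : ℝ) ^ p⌉₊ = R + 1 := by
    rw [e, Nat.ceil_eq_iff (Nat.succ_ne_zero R)]
    push_cast
    constructor
    · linarith
    · linarith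
  unfold W
  rw [hceil, Nat.add_sub_cancel]
  unfold roughPart
  have hR0 : R ≠ 0 := by
    intro h0
    have hmem : a ^ 0 ≤ R := by
      rw [hR]
      exact Finset.single_le_sum (f := fun i => a ^ i) (fun i _ => Nat.zero_le _)
        (Finset.mem_range.2 hp.pos)
    rw [h0] at hmem
    simp at hmem
  rw [List.filter_eq_self.2, Nat.prod_primeFactorsList hR0]
  intro r hr
  have h1 := Nat.dvd_of_mem_primeFactorsList hr
  rw [hgeom] at h1
  have := lt_of_dvd_repunit ha hp hpa (Nat.prime_of_mem_primeFactorsList hr) h1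
  simpa using this

/-- the decimal repunits -/
lemma special_ten {p : ℕ} (hp : p.Prime) (hp3 : p ≠ 3) :
    W 10 (1 / 9) p = ∑ i ∈ Finset.range p, 10 ^ i := by
  have hp9 : ¬ p ∣ 10 - 1 := by
    intro h
    have : p ∣ 3 ^ 2 := by simpa using h
    exact hp3 ((Nat.prime_dvd_prime_iff_eq hp Nat.prime_three).1 (hp.dvd_of_dvd_pow this))
  have h := special (a := 10) (by norm_num) hp hp9
  have e : (1 / ((10 : ℕ) - 1 : ℝ)) = 1 / 9 := by norm_num
  rw [e] at h
  rw [h, Nat.geomSum_eq (by norm_num) p]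

theorem W_eq (a : ℕ) (β : ℝ) (p : ℕ) : Pool.Agent.Helper76x.EX.WB a β p = W a β p := rfl

/-- the constant in base ten -/
theorem const_ten : (0.565 : ℝ) ≤ 1 - 1 / Real.log (10 : ℕ) := by
  have h1 : (2.3 : ℝ) ≤ Real.log (10 : ℕ) := by
    rw [Real.le_log_iff_exp_le (by norm_num)]
    have h2 : Real.exp 2.3 ^ 10 ≤ (10 : ℝ) ^ 10 := by
      rw [← Real.exp_nat_mul]
      have e : ((10 : ℕ) : ℝ) * 2.3 = ((23 : ℕ) : ℝ) * 1 := by norm_num
      rw [e, Real.exp_nat_mul]
      have h3 := Real.exp_one_lt_d9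
      calc Real.exp 1 ^ 23 ≤ (2.7182818286 : ℝ) ^ 23 := by gcongr
        _ ≤ _ := by norm_num
    have h4 := (pow_le_pow_iff_left₀ (Real.exp_pos _).le (by norm_num) (by norm_num)).1 h2
    simpa using h4
  have h5 : 1 / Real.log (10 : ℕ) ≤ 1 / 2.3 := one_div_le_one_div_of_le (by norm_num) h1
  have h6 : (0.565 : ℝ) ≤ 1 - 1 / 2.3 := by norm_num
  linarith

/-- The special values.  In every base `a ≥ 3` and in every open set of amplitudes the amplitudes with
finitely many good lengths form a set of Hausdorff dimension at least `1 - 1 / log a`; this is at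
least `0.565` in base ten. -/
theorem result :
    (∀ p : ℕ, p.Prime → p ≠ 3 → W 10 (1 / 9) p = ∑ i ∈ Finset.range p, 10 ^ i) ∧
    (∀ a : ℕ, 3 ≤ a → ∀ U : Set ℝ, IsOpen U → (U ∩ Set.Ioi 0).Nonempty →
      ENNReal.ofReal (1 - 1 / Real.log a) ≤
        dimH {β : ℝ | β ∈ U ∧ {p : ℕ | p.Prime ∧ (W a β p).Prime}.Finite}) ∧
    (∀ U : Set ℝ, IsOpen U → (U ∩ Set.Ioi 0).Nonempty →
      ENNReal.ofReal 0.565 ≤
        dimH {β : ℝ | β ∈ U ∧ {p : ℕ | p.Prime ∧ (W 10 β p).Prime}.Finite}) := by
  have key : ∀ a : ℕ, 3 ≤ a → ∀ U : Set ℝ, IsOpen U → (U ∩ Set.Ioi 0).Nonempty →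
      ENNReal.ofReal (1 - 1 / Real.log a) ≤
        dimH {β : ℝ | β ∈ U ∧ {p : ℕ | p.Prime ∧ (W a β p).Prime}.Finite} := by
    intro a ha U hU hne
    have hpos : 0 < 1 - 1 / Real.log a := by
      have h1 : 1 < Real.log a := by
        rw [Real.lt_log_iff_exp_lt (by exact_mod_cast (by omega : 0 < a))]
        have h2 := Real.exp_one_lt_d9
        have h3 : (3 : ℝ) ≤ a := by exact_mod_cast ha
        linarith
      have : 1 / Real.log a < 1 := by rw [div_lt_one (by linarith)]; exact h1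
      linarith
    refine Pool.Agent.Helper76x.EX.ofReal_le_of_forall hpos fun r hr0 hr => ?_
    obtain ⟨u, v, hu, huv, hsub⟩ := Pool.Agent.Helper76x.EX.exists_Ioo hU hne
    refine (Pool.Agent.Helper76x.EX.Few.dim_few1 (by omega) hr0
      (Pool.Agent.Helper76x.EX.Few.H1_pnt (by omega) hr) hu huv).trans (dimH_mono ?_)
    rintro β ⟨hβ, hf⟩
    refine ⟨hsub hβ, ?_⟩
    obtain ⟨N, hN⟩ := eventually_atTop.1 hf
    refine (Set.finite_lt_nat N).subset ?_
    rintro p ⟨hp, hW⟩
    by_contra hc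
    exact hN p (not_lt.1 hc) hp hW
  refine ⟨fun p hp hp3 => special_ten hp hp3, key, fun U hU hne => ?_⟩
  exact (ENNReal.ofReal_le_ofReal const_ten).trans (key 10 (by norm_num) U hU hne)

end Pool.Agent.Results.MP_adea1b_nt.FinitelyManyLengths
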