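import Mathlib
import Pool.Agent.H39x.LP.Main
import Pool.Agent.W66.ST

set_option autoImplicit false

/-!
# Decimal repunits with a random tail: a positive proportion of the leading digits are ones

For `0.5834 < κ < 1` and real `θ` let `N θ p = R_p + ⌊θ 10 ^ ⌊κ p⌋⌋`, where `R_p` is the repunit of
length `p`; for `θ = 0` this is the repunit itself, and for `0 ≤ θ < 8 / 9` it is an integer with
`p` decimal digits, the leading `p - ⌊κ p⌋` of which are ones. We prove that for almost every `θ` the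
number of primes `p ≤ n` for which the `p`-rough part of `N θ p` is prime is
`(e ^ γ / log 10) log n + O((log n) ^ (1/2) (log log n) ^ (5/2))`, that for every set `S` of primes
and almost every `θ` there are infinitely many such `p` in `S` if and only if the sum of `log p / p`
over `S` diverges, and that in this case the law holds with this sum in the place of `log n`. The
same holds for every sequence of integers of the order `10 ^ p` in the place of the repunits.

The proof needs the prime number theorem in intervals of length `x ^ 0.5834`.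
-/

namespace Pool.Agent.Results.MP_adea1b_nt.LeadingOnes

open Filter Topology MeasureTheory Asymptotics

/-- The product, with multiplicity, of the prime factors of `m` that are larger than `p`. -/
def roughPart (p m : ℕ) : ℕ := (m.primeFactorsList.filter (fun r => p < r)).prod

/-- The repunit of length `p`. -/
def R (p : ℕ) : ℕ := ∑ i ∈ Finset.range p, 10 ^ i

/-- The integer `a p + ⌊θ 10 ^ ⌊κ p⌋⌋` (zero if this is negative). -/
noncomputable def N (a : ℕ → ℤ) (κ θ : ℝ) (p : ℕ) : ℕ := (a p + ⌊θ * 10 ^ ⌊κ * p⌋₊⌋).toNat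

open Classical in
/-- The number of primes `p ≤ n` in the set `S` for which the `p`-rough part of `N a κ θ p` is
prime. -/
noncomputable def M (S : Set ℕ) (a : ℕ → ℤ) (κ θ : ℝ) (n : ℕ) : ℕ :=
  ((Finset.range (n + 1)).filter (fun p => p.Prime ∧ p ∈ S ∧ (roughPart p (N a κ θ p)).Prime)).card

open Classical in
/-- The sum of `log p / p` over the primes `p ≤ n` in the set `S`. -/
noncomputable def V (S : Set ℕ) (n : ℕ) : ℝ :=
  ∑ p ∈ (Finset.range (n + 1)).filter (fun p => p.Prime ∧ p ∈ S), Real.log p / p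

lemma V_eq (S : Set ℕ) : V S = Pool.Agent.TH888.R.VS S := by
  classical
  funext n
  unfold V Pool.Agent.TH888.R.VS
  rw [Finset.sum_filter]
  refine Finset.sum_congr rfl fun p _ => ?_
  by_cases h : p.Prime ∧ p ∈ S
  · rw [if_pos h, if_pos ⟨h.2, h.1⟩]
    rfl
  · rw [if_neg h, if_neg fun h1 => h ⟨h1.2, h1.1⟩]

lemma N_eq (a : ℕ → ℤ) (κ θ : ℝ) : N a κ θ = Pool.Agent.H39x.LP.sq 10 κ a θ := by
  funext p
  unfold N Pool.Agent.H39x.LP.sq
  norm_num

lemma R_mul (p : ℕ) : R p * 9 + 1 = 10 ^ p := by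
  unfold R
  have h1 := Nat.geomSum_eq (m := 10) (by norm_num) p
  have h2 : 9 ∣ 10 ^ p - 1 := by
    have := Nat.sub_dvd_pow_sub_pow 10 1 p
    simpa using this
  have h3 : 1 ≤ 10 ^ p := Nat.one_le_pow _ _ (by norm_num)
  rw [h1]
  omega

lemma rough_repunit {p : ℕ} (hp : p.Prime) (h3 : p ≠ 3) : roughPart p (R p) = R p := by
  have h := Pool.Agent.W66S.repunit_special (b := 10) (by norm_num) hp (by
    intro h
    have h2 : p ∣ 3 := by
      have : p ∣ 3 ^ 2 := by simpa using h
      exact hp.dvd_of_dvd_pow this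
    exact h3 ((Nat.prime_dvd_prime_iff_eq hp Nat.prime_three).1 h2))
  have e1 : ⌈(1 / (((10 : ℕ) : ℝ) - 1)) * ((10 : ℕ) : ℝ) ^ p⌉₊ = R p + 1 := by
    have hR : (R p : ℝ) * 9 + 1 = 10 ^ p := by exact_mod_cast R_mul p
    rw [Nat.ceil_eq_iff (Nat.succ_ne_zero _)]
    push_cast
    rw [← hR]
    constructor
    · linarith
    · linarith
  rw [e1, Nat.add_sub_cancel] at h
  exact h

lemma N_zero (κ : ℝ) (p : ℕ) : N (fun p => (R p : ℤ)) κ 0 p = R p := by
  unfold N
  rw [zero_mul, Int.floor_zero, add_zero]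
  exact Int.toNat_natCast _

/-- the leading digits are ones -/
lemma N_ones {κ θ : ℝ} (hκ1 : κ < 1) (hθ : 0 ≤ θ) (hθ1 : θ < 8 / 9) (p : ℕ) :
    N (fun p => (R p : ℤ)) κ θ p / 10 ^ ⌊κ * p⌋₊ = R (p - ⌊κ * p⌋₊) := by
  set k := ⌊κ * p⌋₊ with hk
  have hkp : k ≤ p := by
    rw [hk]
    have : κ * p ≤ p := mul_le_of_le_one_left (Nat.cast_nonneg p) hκ1.le
    calc ⌊κ * (p : ℝ)⌋₊ ≤ ⌊(p : ℝ)⌋₊ := Nat.floor_le_floor this
      _ = p := Nat.floor_natCast p
  have hx0 : 0 ≤ θ * 10 ^ k := by positivity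
  have hN : N (fun p => (R p : ℤ)) κ θ p = R p + ⌊θ * 10 ^ k⌋₊ := by
    unfold N
    rw [← hk, ← Int.natCast_floor_eq_floor hx0, ← Nat.cast_add, Int.toNat_natCast]
  have hsplit : R p = R (p - k) * 10 ^ k + R k := by
    have h1 := R_mul p
    have h2 := R_mul (p - k)
    have h3 := R_mul k
    have h4 : 10 ^ p = 10 ^ (p - k) * 10 ^ k := by
      rw [← pow_add, Nat.sub_add_cancel hkp]
    rw [h4, ← h2] at h1
    have h5 : (R (p - k) * 9 + 1) * 10 ^ k = 9 * (R (p - k) * 10 ^ k) + 10 ^ k := by ring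
    rw [h5] at h1
    omega
  have hlt : R k + ⌊θ * 10 ^ k⌋₊ < 10 ^ k := by
    have h1 : (R k : ℝ) * 9 + 1 = 10 ^ k := by exact_mod_cast R_mul k
    have h2 := Nat.floor_le hx0
    have h3 : θ * 10 ^ k ≤ 8 / 9 * 10 ^ k := mul_le_mul_of_nonneg_right hθ1.le (by positivity)
    have h4 : ((R k + ⌊θ * 10 ^ k⌋₊ : ℕ) : ℝ) < ((10 ^ k : ℕ) : ℝ) := by
      push_cast
      linarith
    exact_mod_cast h4
  rw [hN, hsplit, add_assoc, add_comm, Nat.add_mul_div_right _ _ (by positivity),
    Nat.div_eq_of_lt hlt, zero_add]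

/-- For the repunits and `θ = 0` the counting function is that of the repunit primes (except for
`p = 3`), and for `0 ≤ θ < 8 / 9` the leading `p - ⌊κ p⌋` digits are ones. For every sequence of
integers of the order `10 ^ p` and almost every `θ` the law holds, for the set of all primes; and
for every set `S` of primes there are, for almost every `θ`, infinitely many `p` with prime rough
part if and only if the weight of `S` is infinite, and then the law holds. -/
theorem result :
    (∀ (κ : ℝ) (p : ℕ), p.Prime → p ≠ 3 →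
      roughPart p (N (fun p => (R p : ℤ)) κ 0 p) = R p) ∧
    (∀ κ θ : ℝ, κ < 1 → 0 ≤ θ → θ < 8 / 9 → ∀ p : ℕ,
      N (fun p => (R p : ℤ)) κ θ p / 10 ^ ⌊κ * p⌋₊ = R (p - ⌊κ * p⌋₊)) ∧
    ∀ κ : ℝ, 0.5834 < κ → κ < 1 → ∀ a : ℕ → ℤ,
      (∃ c C : ℝ, 0 < c ∧ ∀ p : ℕ, p.Prime → c * 10 ^ p ≤ a p ∧ (a p : ℝ) ≤ C * 10 ^ p) →
      (∀ᵐ θ : ℝ, (fun n : ℕ => (M Set.univ a κ θ n : ℝ) -
          Real.exp Real.eulerMascheroniConstant / Real.log 10 * Real.log n) =O[atTop]
        (fun n : ℕ => Real.sqrt (Real.log n) * (Real.log (Real.log n)) ^ ((5 : ℝ) / 2))) ∧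
      (∀ S : Set ℕ, ∀ᵐ θ : ℝ,
        ({p : ℕ | p.Prime ∧ p ∈ S ∧ (roughPart p (N a κ θ p)).Prime}.Infinite ↔
          Tendsto (V S) atTop atTop) ∧
        (Tendsto (V S) atTop atTop → (fun n : ℕ => (M S a κ θ n : ℝ) -
          Real.exp Real.eulerMascheroniConstant / Real.log 10 * V S n) =O[atTop]
          (fun n : ℕ => Real.sqrt (V S n * Real.log (Real.log n)) *
            (Real.log (V S n * Real.log (Real.log n))) ^ 2))) := by
  refine ⟨fun κ p hp h3 => ?_, fun κ θ hκ1 hθ hθ1 p => N_ones hκ1 hθ hθ1 p,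
    fun κ hκ hκ1 a ha => ?_⟩
  · rw [N_zero, rough_repunit hp h3]
  · obtain ⟨c, C, hc, h⟩ := ha
    have hl : 0 < Real.log 10 := Real.log_pos (by norm_num)
    have hexp : ∀ p : ℕ, Real.exp (Real.log 10 * p) = 10 ^ p := by
      intro p
      rw [mul_comm, Real.exp_nat_mul, Real.exp_log (by norm_num)]
    have hA : ∀ᶠ p : ℕ in atTop, p.Prime → c * Real.exp (Real.log 10 * p) ≤ a p ∧
        (a p : ℝ) ≤ C * Real.exp (Real.log 10 * p) :=
      Eventually.of_forall fun p hp => by rw [hexp]; exact h p hp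
    have h1 : 0.5834 * Real.log 10 < κ * Real.log ((10 : ℕ) : ℝ) := by
      push_cast
      exact mul_lt_mul_of_pos_right hκ hl
    have h2 : κ * Real.log ((10 : ℕ) : ℝ) < Real.log 10 := by
      push_cast
      exact mul_lt_of_lt_one_left hl hκ1
    refine ⟨?_, fun S => ?_⟩
    · filter_upwards [Pool.Agent.H39x.LP.main_all (b := 10) (by norm_num) hl h1 h2 hc hA] with θ hθ
      have e : ∀ n, M Set.univ a κ θ n =
          Pool.Agent.TH888.R.cS Set.univ (Pool.Agent.H39x.LP.sq 10 κ a θ) n := by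
        intro n
        unfold M
        rw [N_eq]
        rfl
      simp only [e]
      exact hθ
    · rw [V_eq]
      filter_upwards [Pool.Agent.H39x.LP.main_set (b := 10) (by norm_num) hl h1 h2 hc hA S]
        with θ hθ
      have e : ∀ n, M S a κ θ n =
          Pool.Agent.TH888.R.cS S (Pool.Agent.H39x.LP.sq 10 κ a θ) n := by
        intro n
        unfold M
        rw [N_eq]
        rfl
      simp only [e, N_eq]
      exact hθ

end Pool.Agent.Results.MP_adea1b_nt.LeadingOnes
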