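import Mathlib
import Pool.Agent.N176.GP.Fin
import Pool.Agent.N176.OW.All2
import Pool.Agent.H32x.PL.Ex

set_option autoImplicit false

/-!
# Repunits and first digits in all bases: the good lengths form a Poisson process

For an integer `a ≥ 2`, a real `β > 0` and a prime `p` let `W a β p` be the `p`-rough part (the
product, with multiplicity, of the prime factors larger than `p`) of the largest integer below
`β * a ^ p`, the integer formed by the first `p` digits of `β` in base `a` (for `0 < β ≤ 1`,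
non-terminating expansion).  For `a = 10` and `β = 1 / 9 = 0.111...` this is the repunit `R_p` itself,
for every prime `p ≠ 3`; for any base and `β = 1 / (a - 1)` it is the repunit `(a ^ p - 1) / (a - 1)`
in base `a`, for every prime `p` that does not divide `a - 1`.  Call a prime `p` of a set `S` a good
length for `β` in base `a` if `W a β p` is prime.

According to the Poisson model behind the conjecture on repunit primes the good lengths in `S` form, on
the scale `κ a * V S p`, where `V S n` is the sum of `log p / p` over the primes `p ≤ n` of `S` and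
`κ a = e ^ γ / log a`, a Poisson process of intensity one.  We prove this for almost every `β`, in all
bases `a ≥ 2` at once, for every set `S` of infinite weight, whose dyadic pieces have weights tending
to zero and in which the pairs `p`, `p + h` have weight zero relative to the weight of `S`, for every
`h`.  For instance for all primes in the windows `(2 ^ i, (1 + ε i) 2 ^ i]`, where `ε i → 0` and
`∑ ε i = ∞`.

The law: for all `0 = x 0 < x 1 < ... < x r` and all `k 1, ..., k r` the proportion, among the good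
lengths `p ≤ n`, of those followed by exactly `k i` good lengths `q` with
`x (i - 1) < κ a * (V S q - V S p) ≤ x i` for all `i` tends to the product of the Poisson
probabilities.
-/

namespace Pool.Agent.Results.MP_adea1b_nt.PoissonInEveryBase

open Filter Topology MeasureTheory

/-- The product, with multiplicity, of the prime factors of `m` that are larger than `p`. -/
def roughPart (p m : ℕ) : ℕ := (m.primeFactorsList.filter (fun r => p < r)).prod

/-- The `p`-rough part of the largest integer below `β * a ^ p`. -/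
noncomputable def W (a : ℕ) (β : ℝ) (p : ℕ) : ℕ := roughPart p (⌈β * (a : ℝ) ^ p⌉₊ - 1)

/-- The good lengths for `β` in base `a` and in `S`: the primes `p` in `S` for which `W a β p` is
prime. -/
def E (a : ℕ) (S : Set ℕ) (β : ℝ) : Set ℕ := {p | p.Prime ∧ p ∈ S ∧ (W a β p).Prime}

open Classical in
/-- The sum of `log p / p` over the primes `p ≤ n` in the set `S`. -/
noncomputable def V (S : Set ℕ) (n : ℕ) : ℝ :=
  ∑ p ∈ (Finset.range (n + 1)).filter (fun p => p.Prime ∧ p ∈ S), Real.log p / p

/-- The constant of the law, `e ^ γ / log a`. -/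
noncomputable def κ (a : ℕ) : ℝ := Real.exp Real.eulerMascheroniConstant / Real.log a

open Classical in
/-- For almost every `β > 0` and all bases `a ≥ 2` the good lengths for `β` in base `a` and in `S`
have, seen from a typical good length and on the scale `κ a * V S`, the statistics of a Poisson
process of intensity one: the proportion, among the good lengths `p ≤ n`, of those with exactly
`k i` good lengths `q` in the window `x i < κ a * (V S q - V S p) ≤ x (i + 1)`, for all `i < r`, tends
to the product of the Poisson probabilities. -/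
def PoissonLaw (S : Set ℕ) : Prop :=
  ∀ᵐ β : ℝ, 0 < β → ∀ a : ℕ, 2 ≤ a →
    ∀ (r : ℕ) (x : ℕ → ℝ) (k : Fin r → ℕ), x 0 = 0 → (∀ i < r, x i < x (i + 1)) →
    Tendsto (fun n : ℕ =>
      (((Finset.range (n + 1)).filter (fun p => p ∈ E a S β ∧ ∀ i : Fin r,
        {q | q ∈ E a S β ∧ x i < κ a * (V S q - V S p) ∧
          κ a * (V S q - V S p) ≤ x (i + 1)}.encard = k i)).card : ℝ) /
        ((Finset.range (n + 1)).filter (fun p => p ∈ E a S β)).card) atTop
      (𝓝 (∏ i : Fin r, Real.exp (-(x (i + 1) - x i)) * (x (i + 1) - x i) ^ k i / (k i).factorial))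

/-- all prime factors of `(b ^ p - 1) / (b - 1)` are large -/
lemma lt_of_dvd_repunit {b p r : ℕ} (hb : 2 ≤ b) (hp : p.Prime) (hpb : ¬ p ∣ b - 1) (hr : r.Prime)
    (h : r ∣ (b ^ p - 1) / (b - 1)) : p < r := by
  haveI : Fact p.Prime := ⟨hp⟩
  haveI : Fact r.Prime := ⟨hr⟩
  have hdiv : (b - 1) ∣ b ^ p - 1 := by
    have h := Nat.sub_dvd_pow_sub_pow b 1 p
    rwa [one_pow] at h
  have hgeom : (∑ i ∈ Finset.range p, b ^ i) = (b ^ p - 1) / (b - 1) :=
    Nat.geomSum_eq hb p
  have h0 : r ∣ b ^ p - 1 := h.trans (Nat.div_dvd_of_dvd hdiv)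
  have h1 : (b : ZMod r) ^ p = 1 := by
    have h2 : ((b ^ p - 1 : ℕ) : ZMod r) = 0 := (ZMod.natCast_eq_zero_iff _ _).2 h0
    rw [Nat.cast_sub (Nat.one_le_pow _ _ (by omega))] at h2
    push_cast at h2
    exact sub_eq_zero.1 h2
  have h2 : (b : ZMod r) ≠ 1 := by
    intro h3
    rw [← hgeom] at h
    have h4 : ((∑ i ∈ Finset.range p, b ^ i : ℕ) : ZMod r) = 0 := (ZMod.natCast_eq_zero_iff _ _).2 h
    push_cast at h4
    rw [h3] at h4
    simp only [one_pow, Finset.sum_const, Finset.card_range, nsmul_eq_mul, mul_one] at h4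
    have h5 : r ∣ p := (ZMod.natCast_eq_zero_iff _ _).1 h4
    have h6 : r = p := (Nat.prime_dvd_prime_iff_eq hr hp).1 h5
    subst h6
    apply hpb
    rw [← ZMod.natCast_eq_zero_iff, Nat.cast_sub (by omega), h3]
    simp
  have h3 : orderOf (b : ZMod r) = p := orderOf_eq_prime h1 h2
  have h4 : (b : ZMod r) ≠ 0 := by
    intro h5
    rw [h5, zero_pow hp.ne_zero] at h1
    exact zero_ne_one h1
  have h5 : p ∣ r - 1 := by
    rw [← h3]
    exact orderOf_dvd_of_pow_eq_one (ZMod.pow_card_sub_one_eq_one h4)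
  have h6 := Nat.le_of_dvd (by have := hr.one_lt; omega) h5
  have h7 := hr.one_lt
  omega

/-- the special value -/
lemma special {a p : ℕ} (ha : 2 ≤ a) (hp : p.Prime) (hpa : ¬ p ∣ a - 1) :
    W a (1 / ((a : ℝ) - 1)) p = (a ^ p - 1) / (a - 1) := by
  have hgeom : (∑ i ∈ Finset.range p, a ^ i) = (a ^ p - 1) / (a - 1) := Nat.geomSum_eq ha p
  rw [← hgeom]
  set R := ∑ i ∈ Finset.range p, a ^ i with hR
  have ha1 : (1 : ℝ) ≤ (a : ℝ) - 1 := by
    have : (2 : ℝ) ≤ a := by exact_mod_cast ha
    linarith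
  have ha0 : (a : ℝ) - 1 ≠ 0 := by linarith
  have hRr : (R : ℝ) * ((a : ℝ) - 1) = (a : ℝ) ^ p - 1 := by
    have h := geom_sum_mul (a : ℝ) p
    rw [hR]
    push_cast
    linarith
  have e : (1 / ((a : ℝ) - 1)) * (a : ℝ) ^ p = R + 1 / ((a : ℝ) - 1) := by
    field_simp
    linarith
  have h1a : 0 < 1 / ((a : ℝ) - 1) := by positivity
  have h1b : 1 / ((a : ℝ) - 1) ≤ 1 := by
    rw [div_le_one (by linarith)]
    exact ha1
  have hceil : ⌈(1 / ((a : ℝ) - 1)) * (a : ℝ) ^ p⌉₊ = R + 1 := by
    rw [e, Nat.ceil_eq_iff (Nat.succ_ne_zero R)]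
    push_cast
    constructor
    · linarith
    · linarith
  unfold W
  rw [hceil, Nat.add_sub_cancel]
  unfold roughPart
  have hR0 : R ≠ 0 := by
    intro h0
    have hmem : a ^ 0 ≤ R := by
      rw [hR]
      exact Finset.single_le_sum (f := fun i => a ^ i) (fun i _ => Nat.zero_le _)
        (Finset.mem_range.2 hp.pos)
    rw [h0] at hmem
    simp at hmem
  rw [List.filter_eq_self.2, Nat.prod_primeFactorsList hR0]
  intro r hr
  have h1 := Nat.dvd_of_mem_primeFactorsList hr
  rw [hgeom] at h1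
  have := lt_of_dvd_repunit ha hp hpa (Nat.prime_of_mem_primeFactorsList hr) h1
  simpa using this

/-- the decimal repunits -/
lemma special_ten {p : ℕ} (hp : p.Prime) (hp3 : p ≠ 3) :
    W 10 (1 / 9) p = ∑ i ∈ Finset.range p, 10 ^ i := by
  have hp9 : ¬ p ∣ 10 - 1 := by
    intro h
    have : p ∣ 3 ^ 2 := by simpa using h
    exact hp3 ((Nat.prime_dvd_prime_iff_eq hp Nat.prime_three).1 (hp.dvd_of_dvd_pow this))
  have h := special (a := 10) (by norm_num) hp hp9
  have e : (1 / ((10 : ℕ) - 1 : ℝ)) = 1 / 9 := by norm_num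
  rw [e] at h
  rw [h, Nat.geomSum_eq (by norm_num) p]

/-- At `β = 1 / 9` and in base `10` the integers `W a β p` are the decimal repunits, for `p ≠ 3`, and
at `β = 1 / (a - 1)` those in base `a`.  The Poisson law holds for every set `S` of infinite weight
whose dyadic pieces have weights tending to zero and whose pairs at every fixed distance have relative
weight zero; in particular for all primes in the windows `(2 ^ i, (1 + ε i) 2 ^ i]`, if `ε i → 0` and
`∑ ε i = ∞`. -/
theorem result :
    (∀ p : ℕ, p.Prime → p ≠ 3 → W 10 (1 / 9) p = ∑ i ∈ Finset.range p, 10 ^ i) ∧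
    (∀ a : ℕ, 2 ≤ a → ∀ p : ℕ, p.Prime → ¬ p ∣ a - 1 →
      W a (1 / ((a : ℝ) - 1)) p = (a ^ p - 1) / (a - 1)) ∧
    (∀ S : Set ℕ, Tendsto (fun n => V S n) atTop atTop →
      Tendsto (fun n : ℕ => V S (2 * n) - V S n) atTop (𝓝 0) →
      (∀ h : ℕ, 1 ≤ h → Tendsto (fun n =>
        V {p | p ∈ S ∧ p + h ∈ S ∧ (p + h).Prime} n / V S n) atTop (𝓝 0)) →
      PoissonLaw S) ∧
    (∀ ε : ℕ → ℝ, (∀ i, 0 ≤ ε i) → (∀ i, ε i ≤ 1) → Tendsto ε atTop (𝓝 0) → ¬ Summable ε →
      PoissonLaw {p | ∃ i : ℕ, 2 ^ i < p ∧ (p : ℝ) ≤ 2 ^ i * (1 + ε i)}) := by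
  classical
  have ek : ∀ a : ℕ, Pool.Agent.N176.OW.kap a = κ a := fun a => rfl
  have eE : ∀ a S β, Pool.Agent.H32x.PL.Et a S β = E a S β := by
    intro a S β
    unfold Pool.Agent.H32x.PL.Et E W Pool.Agent.N176.GP.NB
    rfl
  have ev : ∀ a S n, Pool.Agent.H32x.PL.vv a S n = κ a * V S n := by
    intro a S n
    unfold Pool.Agent.H32x.PL.vv
    rw [ek]
    rfl
  have hmain : ∀ S : Set ℕ, Tendsto (fun n => V S n) atTop atTop →
      Tendsto (fun n : ℕ => V S (2 * n) - V S n) atTop (𝓝 0) →
      (∀ h : ℕ, 1 ≤ h → Tendsto (fun n =>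
        V {p | p ∈ S ∧ p + h ∈ S ∧ (p + h).Prime} n / V S n) atTop (𝓝 0)) →
      PoissonLaw S := by
    intro S hS hD hP
    unfold PoissonLaw
    have h0 : ∀ᵐ β : ℝ, ∀ a : ℕ, ∀ _ : 2 ≤ a, 0 < β →
        ∀ (r : ℕ) (x : ℕ → ℝ) (k : Fin r → ℕ), x 0 = 0 → (∀ i < r, x i < x (i + 1)) →
        Tendsto (fun n : ℕ =>
          (((Finset.range (n + 1)).filter (fun p => p ∈ E a S β ∧ ∀ i : Fin r,
            {q | q ∈ E a S β ∧ x i < κ a * (V S q - V S p) ∧
              κ a * (V S q - V S p) ≤ x (i + 1)}.encard = k i)).card : ℝ) /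
            ((Finset.range (n + 1)).filter (fun p => p ∈ E a S β)).card) atTop
          (𝓝 (∏ i : Fin r,
            Real.exp (-(x (i + 1) - x i)) * (x (i + 1) - x i) ^ k i / (k i).factorial)) := by
      rw [ae_all_iff]
      intro a
      rw [ae_all_iff]
      intro ha
      filter_upwards [Pool.Agent.H32x.PL.palm Pool.Agent.N176.OW.All.fm Pool.Agent.N176.OW.All.lil
        (b := a) ha hS hD hP] with β hβ hβ0 r x k hx0 hx
      refine (hβ hβ0 r x k hx0 hx).congr fun n => ?_
      rw [Pool.Agent.H32x.PL.MB_eq]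
      unfold Pool.Agent.H32x.PL.BB Pool.Agent.H32x.PL.Qp
      simp only [eE, ev, mul_sub]
    filter_upwards [h0] with β hβ hβ0 a ha r x k hx0 hx
    exact hβ a ha hβ0 r x k hx0 hx
  refine ⟨fun p hp h3 => special_ten hp h3, fun a ha p hp hpa => special ha hp hpa, hmain,
    fun ε hε0 hε1 hε hεs => ?_⟩
  obtain ⟨h1, h2, h3⟩ := Pool.Agent.H32x.PL.thin_ok hε0 hε1 hε hεs
  exact hmain _ h1 h2 h3

end Pool.Agent.Results.MP_adea1b_nt.PoissonInEveryBase
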